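import Pool.Agent.Y89.TX.Stm
import Pool.Agent.Y960.TU.Weil2

/-!
# Project TX (helper89): two one-parameter groups (job 5568)
-/

set_option autoImplicit false

open Matrix Finset

namespace Pool.Agent.Y434.TX

open Pool.Agent.Y89.TX
open Pool.Agent.Y89.KS (der sl)
open Pool.Agent.Y89.TS (act)
open Pool.Agent.Y960.TU (flow)

theorem t_weil3 : Pool.Agent.Y89.TX.S_weil3 := by
  intro ι _ _ X Y hXY hYX hX hY k f hf
  have hX' : X * (X * X) = X := by rw [← mul_assoc, hX]
  have hY' : (4 : ℂ) • (Y * (Y * Y)) = Y := by rw [← mul_assoc, hY]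
  have hXYY : X * (Y * Y) = 0 := by rw [← mul_assoc, hXY, zero_mul]
  have hYXX : Y * (X * X) = 0 := by rw [← mul_assoc, hYX, zero_mul]
  obtain ⟨G, hG⟩ : ∃ G : ℝ → Matrix ι ι ℂ, G = fun t => 1 + ((Real.cos t : ℂ) - 1) • (X * X) +
      (Complex.I * (Real.sin t : ℂ)) • X + (4 * ((Real.cos (t / 2) : ℂ) - 1)) • (Y * Y) +
      (2 * Complex.I * (Real.sin (t / 2) : ℂ)) • Y := ⟨_, rfl⟩
  have key := flow (X + Y) G ?_ ?_ Real.pi k f hf
  · have e : G Real.pi = 1 - (2 : ℂ) • (X * X) - (4 : ℂ) • (Y * Y) + (2 * Complex.I) • Y := by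
      rw [hG]
      simp only [Real.sin_pi, Real.cos_pi, Real.sin_pi_div_two, Real.cos_pi_div_two]
      have h2 : (((-1 : ℝ) : ℂ) - 1) = -2 := by norm_num
      have h3 : (4 * (((0 : ℝ) : ℂ) - 1)) = -4 := by norm_num
      rw [h2, h3, Complex.ofReal_zero, Complex.ofReal_one, mul_zero, mul_one, zero_smul, neg_smul,
        neg_smul, add_zero, ← sub_eq_add_neg, ← sub_eq_add_neg]
    rw [← e]
    exact key
  · intro t a b
    have hmul : (X + Y) * G t = (Real.cos t : ℂ) • X + (Complex.I * (Real.sin t : ℂ)) • (X * X) +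
        (Real.cos (t / 2) : ℂ) • Y + (2 * Complex.I * (Real.sin (t / 2) : ℂ)) • (Y * Y) := by
      rw [hG]
      simp only [mul_add, add_mul, mul_one, mul_smul_comm, hX', hXYY, hYXX, hXY, hYX,
        smul_zero, add_zero, zero_add]
      have h4 : (4 * ((Real.cos (t / 2) : ℂ) - 1)) • (Y * (Y * Y)) =
          ((Real.cos (t / 2) : ℂ) - 1) • Y := by
        rw [mul_comm, mul_smul, hY']
      rw [h4, sub_smul, sub_smul, one_smul, one_smul]
      abel
    have hsum : ∑ q, (X + Y) a q * G t q b = ((X + Y) * G t) a b := by rw [Matrix.mul_apply]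
    rw [hsum, hmul, hG]
    simp only [Matrix.add_apply, Matrix.smul_apply, smul_eq_mul]
    have h1 : HasDerivAt (fun t : ℝ => (Real.cos t : ℂ)) ((-Real.sin t : ℝ) : ℂ) t :=
      (Real.hasDerivAt_cos t).ofReal_comp
    have h2 : HasDerivAt (fun t : ℝ => (Real.sin t : ℂ)) ((Real.cos t : ℝ) : ℂ) t :=
      (Real.hasDerivAt_sin t).ofReal_comp
    have h0 : HasDerivAt (fun t : ℝ => t / 2) (1 / 2) t := (hasDerivAt_id t).div_const 2
    have h3 : HasDerivAt (fun t : ℝ => (Real.cos (t / 2) : ℂ))
        ((-Real.sin (t / 2) * (1 / 2) : ℝ) : ℂ) t := (h0.cos).ofReal_comp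
    have h4 : HasDerivAt (fun t : ℝ => (Real.sin (t / 2) : ℂ))
        ((Real.cos (t / 2) * (1 / 2) : ℝ) : ℂ) t := (h0.sin).ofReal_comp
    have h5 := (((((h1.sub_const 1).mul_const ((X * X) a b)).const_add
      ((1 : Matrix ι ι ℂ) a b)).add ((h2.const_mul Complex.I).mul_const (X a b))).add
      (((h3.sub_const 1).const_mul 4).mul_const ((Y * Y) a b))).add
      ((h4.const_mul (2 * Complex.I)).mul_const (Y a b))
    refine h5.congr_deriv ?_
    have hI := Complex.I_mul_I
    push_cast
    linear_combination (-(Complex.sin t * (X * X) a b) -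
      2 * Complex.sin (t / 2) * (Y * Y) a b) * hI
  · rw [hG]
    simp

theorem der_smul {ι : Type} [Fintype ι] [DecidableEq ι] (c : ℂ) (Y : Matrix ι ι ℂ) {k : ℕ}
    (f : (Fin k → ι) → ℂ) : der (c • Y) f = c • der Y f := by
  funext J
  unfold der sl
  simp only [Matrix.smul_apply, smul_eq_mul, Pi.smul_apply]
  rw [mul_sum]
  refine sum_congr rfl fun j _ => ?_
  rw [mul_sum]
  refine sum_congr rfl fun p _ => ?_
  ring

theorem exists_angle (α β : ℂ) (h : α * α + β * β = 1) :
    ∃ θ : ℂ, Complex.cos θ = α ∧ Complex.sin θ = β := by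
  have hI := Complex.I_mul_I
  have h1 : (α + β * Complex.I) * (α - β * Complex.I) = 1 := by
    linear_combination h - β * β * hI
  have h2 : α + β * Complex.I ≠ 0 := left_ne_zero_of_mul_eq_one h1
  have h3 : Complex.exp (Complex.log (α + β * Complex.I)) = α + β * Complex.I :=
    Complex.exp_log h2
  have h4 : Complex.exp (-Complex.log (α + β * Complex.I)) = α - β * Complex.I := by
    rw [Complex.exp_neg, h3]
    exact inv_eq_of_mul_eq_one_right h1
  refine ⟨-Complex.I * Complex.log (α + β * Complex.I), ?_, ?_⟩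
  · rw [Complex.cos]
    have e1 : -Complex.I * Complex.log (α + β * Complex.I) * Complex.I =
        Complex.log (α + β * Complex.I) := by linear_combination -Complex.log (α + β * Complex.I) * hI
    have e2 : -(-Complex.I * Complex.log (α + β * Complex.I)) * Complex.I =
        -Complex.log (α + β * Complex.I) := by linear_combination Complex.log (α + β * Complex.I) * hI
    rw [e1, e2, h3, h4]
    ring
  · rw [Complex.sin]
    have e1 : -Complex.I * Complex.log (α + β * Complex.I) * Complex.I =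
        Complex.log (α + β * Complex.I) := by linear_combination -Complex.log (α + β * Complex.I) * hI
    have e2 : -(-Complex.I * Complex.log (α + β * Complex.I)) * Complex.I =
        -Complex.log (α + β * Complex.I) := by linear_combination Complex.log (α + β * Complex.I) * hI
    rw [e1, e2, h3, h4]
    linear_combination -β * hI

theorem t_rot : Pool.Agent.Y89.TX.S_rot := by
  intro ι _ _ P Y hP hPY hYP hYY k f hf α β hαβ
  obtain ⟨θ, hc, hs⟩ := exists_angle α β hαβ
  obtain ⟨G, hG⟩ : ∃ G : ℝ → Matrix ι ι ℂ, G = fun t : ℝ => 1 - P + Complex.cos (θ * t) • P +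
      Complex.sin (θ * t) • Y := ⟨_, rfl⟩
  have hf' : der ((-Complex.I * θ) • Y) f = 0 := by rw [der_smul, hf, smul_zero]
  have key := flow ((-Complex.I * θ) • Y) G ?_ ?_ 1 k f hf'
  · have e : G 1 = 1 - P + α • P + β • Y := by
      rw [hG]
      simp only [Complex.ofReal_one, mul_one, hc, hs]
    rw [← e]
    exact key
  · intro t a b
    have hmul : ((-Complex.I * θ) • Y) * G t = (-Complex.I * θ * Complex.cos (θ * t)) • Y -
        (-Complex.I * θ * Complex.sin (θ * t)) • P := by
      rw [hG]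
      simp only [smul_mul_assoc, mul_add, mul_sub, mul_one, mul_smul_comm, hYP, hYY, sub_self,
        zero_add, smul_neg, smul_smul]
      rw [← sub_eq_add_neg, mul_comm (Complex.cos (θ * t)) (-Complex.I * θ),
        mul_comm (Complex.sin (θ * t)) (-Complex.I * θ)]
    have hsum : ∑ q, ((-Complex.I * θ) • Y) a q * G t q b = (((-Complex.I * θ) • Y) * G t) a b := by
      rw [Matrix.mul_apply]
    rw [hsum, hmul, hG]
    simp only [Matrix.add_apply, Matrix.sub_apply, Matrix.smul_apply, smul_eq_mul]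
    have h1 : HasDerivAt (fun t : ℝ => Complex.cos (θ * t)) (-Complex.sin (θ * t) * (θ * 1)) t :=
      (((hasDerivAt_id (t : ℂ)).const_mul θ).ccos).comp_ofReal
    have h2 : HasDerivAt (fun t : ℝ => Complex.sin (θ * t)) (Complex.cos (θ * t) * (θ * 1)) t :=
      (((hasDerivAt_id (t : ℂ)).const_mul θ).csin).comp_ofReal
    have h3 := ((h1.mul_const (P a b)).const_add ((1 : Matrix ι ι ℂ) a b - P a b)).add
      (h2.mul_const (Y a b))
    refine h3.congr_deriv ?_
    have hI := Complex.I_mul_I
    linear_combination (θ * Complex.cos (θ * t) * Y a b - θ * Complex.sin (θ * t) * P a b) * hI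
  · rw [hG]
    simp

end Pool.Agent.Y434.TX
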